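import Pool.Agent.W5h68.Doyle.Liouville

set_option autoImplicit false

/-!
Angles of triangles formed by three mutually tangent circles, and their variation.
-/

namespace Pool.Agent.W5h68.Doyle

open Real

/-- The angle at the centre of the circle of radius `x`, in the Euclidean triangle formed by the
centres of three mutually tangent circles of radii `x, y, z` (sides `x + y`, `x + z`, `y + z`),
given by the law of cosines. -/
noncomputable def ang (x y z : ℝ) : ℝ :=
  arccos (((x + y) ^ 2 + (x + z) ^ 2 - (y + z) ^ 2) / (2 * (x + y) * (x + z)))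

lemma ang_eq {x y z : ℝ} (hx : 0 < x) (hy : 0 < y) (hz : 0 < z) :
    ang x y z = 2 * arctan (sqrt (y * z / (x * (x + y + z)))) := by
  have hq : 0 ≤ y * z / (x * (x + y + z)) := by positivity
  have hc : Real.cos (2 * arctan (sqrt (y * z / (x * (x + y + z))))) =
      ((x + y) ^ 2 + (x + z) ^ 2 - (y + z) ^ 2) / (2 * (x + y) * (x + z)) := by
    rw [Real.cos_two_mul, Real.cos_sq_arctan, Real.sq_sqrt hq]
    have h1 : 1 + y * z / (x * (x + y + z)) = (x + y) * (x + z) / (x * (x + y + z)) := by
      field_simp
      ring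
    rw [h1]
    field_simp
    ring
  unfold ang
  rw [← hc, Real.arccos_cos]
  · have := Real.arctan_nonneg.2 (Real.sqrt_nonneg (y * z / (x * (x + y + z))))
    linarith
  · have := Real.arctan_lt_pi_div_two (sqrt (y * z / (x * (x + y + z))))
    linarith

/-- The conductance of the side between the circles of radii `x` and `y`. -/
noncomputable def cnd (x y z : ℝ) : ℝ := sqrt (x * y * z / (x + y + z)) / (x + y)

lemma cnd_symm (x y z : ℝ) : cnd x y z = cnd y x z := by
  unfold cnd
  rw [mul_comm x y, add_comm x y]

lemma cnd_pos {x y z : ℝ} (hx : 0 < x) (hy : 0 < y) (hz : 0 < z) : 0 < cnd x y z := by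
  unfold cnd
  apply div_pos (Real.sqrt_pos.2 (by positivity)) (by positivity)

lemma cnd_le {x y z : ℝ} (hx : 0 < x) (hy : 0 < y) (hz : 0 < z) : cnd x y z ≤ 1 / 2 := by
  unfold cnd
  rw [div_le_iff₀ (by positivity)]
  rw [Real.sqrt_le_left (by positivity)]
  rw [div_le_iff₀ (by positivity)]
  have h1 : 0 ≤ (x - y) ^ 2 * (x + y + z) := by positivity
  have h2 : 0 ≤ x * y * (x + y) := by positivity
  nlinarith

lemma hasDerivAt_ang {a b c fa fb fc : ℝ} (t : ℝ) :
    HasDerivAt (fun t => ang (exp (a + t * fa)) (exp (b + t * fb)) (exp (c + t * fc)))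
      (cnd (exp (a + t * fa)) (exp (b + t * fb)) (exp (c + t * fc)) * (fb - fa) +
        cnd (exp (a + t * fa)) (exp (c + t * fc)) (exp (b + t * fb)) * (fc - fa)) t := by
  have hE : ∀ p q : ℝ, HasDerivAt (fun t => exp (p + t * q)) (exp (p + t * q) * q) t := by
    intro p q
    have h1 : HasDerivAt (fun t : ℝ => p + t * q) q t := by
      simpa using ((hasDerivAt_id t).mul_const q).const_add p
    exact h1.exp
  have hX := hE a fa
  have hY := hE b fb
  have hZ := hE c fc
  have e : (fun t => ang (exp (a + t * fa)) (exp (b + t * fb)) (exp (c + t * fc))) =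
      fun t => 2 * arctan (sqrt (exp (b + t * fb) * exp (c + t * fc) / (exp (a + t * fa) *
        (exp (a + t * fa) + exp (b + t * fb) + exp (c + t * fc))))) := by
    funext t
    exact ang_eq (exp_pos _) (exp_pos _) (exp_pos _)
  rw [e]
  have hQ := (hY.mul hZ).div (hX.mul ((hX.add hY).add hZ)) (by
    have := exp_pos (a + t * fa)
    have := exp_pos (b + t * fb)
    have := exp_pos (c + t * fc)
    simp only [Pi.mul_apply, Pi.add_apply]
    positivity)
  have hS := (hQ.sqrt (by
    have := exp_pos (a + t * fa)
    have := exp_pos (b + t * fb)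
    have := exp_pos (c + t * fc)
    simp only [Pi.mul_apply, Pi.add_apply, Pi.div_apply]
    positivity)).arctan.const_mul 2
  refine HasDerivAt.congr_deriv hS ?_
  simp only [Pi.mul_apply, Pi.add_apply, Pi.div_apply]
  have hx := exp_pos (a + t * fa)
  have hy := exp_pos (b + t * fb)
  have hz := exp_pos (c + t * fc)
  generalize exp (a + t * fa) = x at *
  generalize exp (b + t * fb) = y at *
  generalize exp (c + t * fc) = z at *
  have hs : 0 < x + y + z := by positivity
  unfold cnd
  have hρ : sqrt (x * y * z / (x + y + z)) = x * sqrt (y * z / (x * (x + y + z))) := by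
    have h1 : x * y * z / (x + y + z) = x ^ 2 * (y * z / (x * (x + y + z))) := by
      field_simp
    rw [h1, Real.sqrt_mul (by positivity), Real.sqrt_sq hx.le]
  have hρ' : sqrt (x * z * y / (x + z + y)) = x * sqrt (y * z / (x * (x + y + z))) := by
    rw [← hρ]
    congr 1
    ring
  rw [hρ, hρ']
  obtain ⟨P, hP⟩ : ∃ P, P = sqrt (y * z / (x * (x + y + z))) := ⟨_, rfl⟩
  have hP0 : 0 < P := by rw [hP]; exact Real.sqrt_pos.2 (by positivity)
  have hP2 : P ^ 2 = y * z / (x * (x + y + z)) := by
    rw [hP]; exact Real.sq_sqrt (by positivity)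
  rw [← hP, hP2]
  have hP2' : P * P * (x * (x + y + z)) = y * z := by
    have : P * P = P ^ 2 := by ring
    rw [this, hP2]
    field_simp
  have h1 : 1 + y * z / (x * (x + y + z)) = (x + y) * (x + z) / (x * (x + y + z)) := by
    field_simp
    ring
  rw [h1]
  field_simp
  have hh : P ^ 2 = y * z / (x * (x + y + z)) := hP2
  rw [hh]
  field_simp
  ring

lemma continuous_cnd {a b c fa fb fc : ℝ} :
    Continuous (fun t => cnd (exp (a + t * fa)) (exp (b + t * fb)) (exp (c + t * fc))) := by
  unfold cnd
  apply Continuous.div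
  · apply Continuous.sqrt
    apply Continuous.div
    · fun_prop
    · fun_prop
    · intro t; positivity
  · fun_prop
  · intro t; positivity

/-- Mean conductance of the side between the first two circles. -/
noncomputable def Cnd (a b c fa fb fc : ℝ) : ℝ :=
  ∫ t in (0 : ℝ)..1, cnd (exp (a + t * fa)) (exp (b + t * fb)) (exp (c + t * fc))

lemma Cnd_symm (a b c fa fb fc : ℝ) : Cnd a b c fa fb fc = Cnd b a c fb fa fc := by
  unfold Cnd
  simp_rw [cnd_symm (exp (a + _ * fa))]

lemma Cnd_pos (a b c fa fb fc : ℝ) : 0 < Cnd a b c fa fb fc := by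
  unfold Cnd
  apply intervalIntegral.intervalIntegral_pos_of_pos
  · exact continuous_cnd.intervalIntegrable _ _
  · intro t
    exact cnd_pos (exp_pos _) (exp_pos _) (exp_pos _)
  · norm_num

lemma Cnd_le (a b c fa fb fc : ℝ) : Cnd a b c fa fb fc ≤ 1 / 2 := by
  unfold Cnd
  have h1 : ∫ t in (0 : ℝ)..1, cnd (exp (a + t * fa)) (exp (b + t * fb)) (exp (c + t * fc)) ≤
      ∫ t in (0 : ℝ)..1, (1 / 2 : ℝ) := by
    apply intervalIntegral.integral_mono_on (by norm_num)
    · exact continuous_cnd.intervalIntegrable _ _
    · exact continuous_const.intervalIntegrable _ _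
    · intro t _
      exact cnd_le (exp_pos _) (exp_pos _) (exp_pos _)
  simpa using h1

/-- Difference of the angles. -/
lemma ang_sub (a b c fa fb fc : ℝ) :
    ang (exp (a + fa)) (exp (b + fb)) (exp (c + fc)) - ang (exp a) (exp b) (exp c) =
      Cnd a b c fa fb fc * (fb - fa) + Cnd a c b fa fc fb * (fc - fa) := by
  have h := intervalIntegral.integral_eq_sub_of_hasDerivAt (a := 0) (b := 1)
    (fun t _ => hasDerivAt_ang (a := a) (b := b) (c := c) (fa := fa) (fb := fb) (fc := fc) t) (by
      apply Continuous.intervalIntegrable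
      exact (continuous_cnd.mul continuous_const).add (continuous_cnd.mul continuous_const))
  have i1 : IntervalIntegrable (fun t => cnd (exp (a + t * fa)) (exp (b + t * fb))
      (exp (c + t * fc)) * (fb - fa)) MeasureTheory.volume 0 1 :=
    (continuous_cnd.mul continuous_const).intervalIntegrable _ _
  have i2 : IntervalIntegrable (fun t => cnd (exp (a + t * fa)) (exp (c + t * fc))
      (exp (b + t * fb)) * (fc - fa)) MeasureTheory.volume 0 1 :=
    (continuous_cnd.mul continuous_const).intervalIntegrable _ _
  rw [intervalIntegral.integral_add i1 i2,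
    intervalIntegral.integral_mul_const, intervalIntegral.integral_mul_const] at h
  simp only [one_mul, zero_mul, add_zero] at h
  rw [← h]
  rfl

end Pool.Agent.W5h68.Doyle
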