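import Mathlib

set_option autoImplicit false

/-!
Bounded harmonic functions on the triangular lattice with bounded symmetric conductances are
constant.
-/

namespace Pool.Agent.W5h68.Doyle

open Finset

/-- The six directions of the triangular lattice, in cyclic order. -/
def dir : Fin 6 → ℤ × ℤ := ![(1, 0), (0, 1), (-1, 1), (-1, 0), (0, -1), (1, -1)]

lemma dir_add_three (i : Fin 6) : dir (i + 3) = - dir i := by
  fin_cases i <;> rfl

/-- Maximum norm on `ℤ × ℤ`. -/
def nrm (v : ℤ × ℤ) : ℕ := max v.1.natAbs v.2.natAbs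

lemma nrm_add_dir_le (v : ℤ × ℤ) (i : Fin 6) : nrm (v + dir i) ≤ nrm v + 1 := by
  fin_cases i <;> simp [nrm, dir] <;> omega

lemma nrm_le_add_dir (v : ℤ × ℤ) (i : Fin 6) : nrm v ≤ nrm (v + dir i) + 1 := by
  fin_cases i <;> simp [nrm, dir] <;> omega

/-- The flip of oriented edges. -/
def flip : (ℤ × ℤ) × Fin 6 ≃ (ℤ × ℤ) × Fin 6 where
  toFun p := (p.1 + dir p.2, p.2 + 3)
  invFun p := (p.1 + dir p.2, p.2 + 3)
  left_inv p := by
    obtain ⟨v, i⟩ := p
    simp only [dir_add_three, Prod.mk.injEq]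
    refine ⟨by abel, ?_⟩
    fin_cases i <;> rfl
  right_inv p := by
    obtain ⟨v, i⟩ := p
    simp only [dir_add_three, Prod.mk.injEq]
    refine ⟨by abel, ?_⟩
    fin_cases i <;> rfl

/-- Harmonic numbers. -/
noncomputable def H (k : ℕ) : ℝ := ∑ j ∈ range k, 1 / ((j : ℝ) + 1)

lemma H_succ (k : ℕ) : H (k + 1) = H k + 1 / ((k : ℝ) + 1) := by
  simp [H, sum_range_succ]

/-- Cutoff profile. -/
noncomputable def g (N k : ℕ) : ℝ := 1 - H (min k N) / H N

lemma H_pos {N : ℕ} (hN : 0 < N) : 0 < H N := by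
  unfold H
  apply sum_pos
  · intro i _; positivity
  · exact ⟨0, by simpa using hN⟩

lemma g_zero {N : ℕ} : g N 0 = 1 := by simp [g, H]

lemma g_eq_zero {N k : ℕ} (hN : 0 < N) (h : N ≤ k) : g N k = 0 := by
  have := H_pos hN
  simp only [g, min_eq_right h]
  field_simp
  ring

lemma g_diff {N k : ℕ} (hN : 0 < N) : |g N (k + 1) - g N k| ≤ 1 / (((k : ℝ) + 1) * H N) := by
  have hH := H_pos hN
  by_cases h : k < N
  · have h1 : min (k + 1) N = k + 1 := by omega
    have h2 : min k N = k := by omega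
    simp only [g, h1, h2, H_succ]
    have : 1 - (H k + 1 / ((k : ℝ) + 1)) / H N - (1 - H k / H N) =
        - (1 / (((k : ℝ) + 1) * H N)) := by
      field_simp
      ring
    rw [this, abs_neg, abs_of_nonneg (by positivity)]
  · rw [g_eq_zero hN (by omega : N ≤ k + 1), g_eq_zero hN (by omega : N ≤ k)]
    simp
    positivity

/-- Bound of the difference along an edge. -/
lemma g_edge {N a b : ℕ} (hN : 0 < N) (h1 : a ≤ b + 1) (h2 : b ≤ a + 1) :
    (g N b - g N a) ^ 2 ≤ 1 / ((max a 1 : ℕ) * H N) ^ 2 := by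
  have hH := H_pos hN
  have key : |g N b - g N a| ≤ 1 / ((max a 1 : ℕ) * H N) := by
    have hcases : b = a ∨ b = a + 1 ∨ a = b + 1 := by omega
    rcases hcases with h | h | h
    · subst h
      simp only [sub_self, abs_zero]
      positivity
    · subst h
      refine (g_diff hN).trans ?_
      apply one_div_le_one_div_of_le
      · have : (0 : ℝ) < (max a 1 : ℕ) := by
          have : 0 < max a 1 := by omega
          exact_mod_cast this
        positivity
      · apply mul_le_mul_of_nonneg_right _ hH.le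
        have : max a 1 ≤ a + 1 := by omega
        exact_mod_cast this
    · subst h
      rw [abs_sub_comm]
      refine (g_diff hN).trans ?_
      apply one_div_le_one_div_of_le
      · have : (0 : ℝ) < (max (b + 1) 1 : ℕ) := by
          have : 0 < max (b + 1) 1 := by omega
          exact_mod_cast this
        positivity
      · apply mul_le_mul_of_nonneg_right _ hH.le
        have : max (b + 1) 1 = b + 1 := by omega
        rw [this]
        push_cast
        exact le_rfl
  calc (g N b - g N a) ^ 2 = |g N b - g N a| ^ 2 := (sq_abs _).symm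
    _ ≤ (1 / ((max a 1 : ℕ) * H N)) ^ 2 := by gcongr
    _ = _ := by rw [div_pow, one_pow]

/-- The cutoff function. -/
noncomputable def cut (N : ℕ) (v : ℤ × ℤ) : ℝ := g N (nrm v)

lemma box_finite_support {N : ℕ} (hN : 0 < N) (v : ℤ × ℤ) (hv : cut N v ≠ 0) :
    v ∈ (range (N + 1)).biUnion (fun k => (box k : Finset (ℤ × ℤ))) := by
  simp only [mem_biUnion, mem_range, Int.mem_box]
  refine ⟨nrm v, ?_, rfl⟩
  by_contra h
  exact hv (g_eq_zero hN (by omega))

lemma cut_energy {N : ℕ} (hN : 0 < N) :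
    ∑' p : (ℤ × ℤ) × Fin 6, (cut N (p.1 + dir p.2) - cut N p.1) ^ 2 ≤
      6 * (1 + 8 * H N) / H N ^ 2 := by
  have hH := H_pos hN
  rw [tsum_eq_sum (s := ((range (N + 1)).biUnion (fun k => (box k : Finset (ℤ × ℤ)))) ×ˢ
    (univ : Finset (Fin 6)))]
  · rw [sum_product]
    have hle : ∀ v : ℤ × ℤ, ∑ i : Fin 6, (cut N (v + dir i) - cut N v) ^ 2 ≤
        6 * (1 / ((max (nrm v) 1 : ℕ) * H N) ^ 2) := by
      intro v
      calc ∑ i : Fin 6, (cut N (v + dir i) - cut N v) ^ 2 
          ≤ ∑ _i : Fin 6, 1 / ((max (nrm v) 1 : ℕ) * H N) ^ 2 := by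
            apply sum_le_sum
            intro i _
            exact g_edge hN (nrm_le_add_dir v i) (nrm_add_dir_le v i)
        _ = _ := by simp
    refine (sum_le_sum fun v _ => hle v).trans ?_
    rw [sum_biUnion]
    · have hbox : ∀ k : ℕ, ∑ v ∈ (box k : Finset (ℤ × ℤ)), 
          6 * (1 / ((max (nrm v) 1 : ℕ) * H N) ^ 2) = 
          (box k : Finset (ℤ × ℤ)).card * (6 * (1 / ((max k 1 : ℕ) * H N) ^ 2)) := by
        intro k
        rw [sum_congr rfl (g := fun _ => 6 * (1 / ((max k 1 : ℕ) * H N) ^ 2))]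
        · simp
        · intro v hv
          rw [Int.mem_box] at hv
          have : nrm v = k := hv
          rw [this]
      rw [sum_congr rfl (fun k _ => hbox k), sum_range_succ']
      have hterm : ∀ k : ℕ, ((box (k + 1) : Finset (ℤ × ℤ)).card : ℝ) * 
          (6 * (1 / ((max (k + 1) 1 : ℕ) * H N) ^ 2)) = 48 / H N ^ 2 * (1 / ((k : ℝ) + 1)) := by
        intro k
        rw [Int.card_box (by omega)]
        have : max (k + 1) 1 = k + 1 := by omega
        rw [this]
        push_cast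
        field_simp
        ring
      rw [sum_congr rfl (fun k _ => hterm k), ← mul_sum]
      have : ∑ i ∈ range N, 1 / ((i : ℝ) + 1) = H N := rfl
      rw [this]
      simp
      apply le_of_eq
      field_simp
      ring
    · intro a _ b _ hab
      rw [Function.onFun, disjoint_left]
      intro v hva hvb
      rw [Int.mem_box] at hva hvb
      exact hab (hva.symm.trans hvb)
  · rintro ⟨v, i⟩ hv
    have hv' : v ∉ (range (N + 1)).biUnion (fun k => (box k : Finset (ℤ × ℤ))) := by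
      intro h
      apply hv
      rw [mem_product]
      exact ⟨h, mem_univ _⟩
    have hN1 : N + 1 ≤ nrm v := by
      by_contra h
      apply hv'
      simp only [mem_biUnion, mem_range, Int.mem_box]
      exact ⟨nrm v, by omega, rfl⟩
    have h1 : cut N v = 0 := g_eq_zero hN (by omega)
    have h2 : cut N (v + dir i) = 0 := g_eq_zero hN (by
      have := nrm_le_add_dir v i
      omega)
    simp [h1, h2]

lemma exists_cut {ε : ℝ} (hε : 0 < ε) : ∃ N : ℕ, 0 < N ∧
    ∑' p : (ℤ × ℤ) × Fin 6, (cut N (p.1 + dir p.2) - cut N p.1) ^ 2 ≤ ε := by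
  have h := Real.tendsto_sum_range_one_div_nat_succ_atTop
  have h2 := (h.eventually_ge_atTop (1 + 54 / ε)).and (Filter.eventually_gt_atTop 0)
  obtain ⟨N, hN1, hN2⟩ := h2.exists
  refine ⟨N, hN2, (cut_energy hN2).trans ?_⟩
  have hH : 1 + 54 / ε ≤ H N := hN1
  have h3 : 0 < 54 / ε := by positivity
  have hH1 : 1 ≤ H N := by linarith
  have hH0 : 0 < H N := by linarith
  rw [div_le_iff₀ (by positivity)]
  have h4 : 54 ≤ ε * H N := by
    have : 54 / ε ≤ H N := by linarith
    rw [div_le_iff₀ hε] at this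
    linarith
  nlinarith

/-- Bounded harmonic functions are constant. -/
theorem liouville (K : ℤ × ℤ → Fin 6 → ℝ) (f : ℤ × ℤ → ℝ) (C M : ℝ)
    (hK0 : ∀ v i, 0 < K v i) (hKC : ∀ v i, K v i ≤ C)
    (hsymm : ∀ v i, K (v + dir i) (i + 3) = K v i)
    (hharm : ∀ v, ∑ i, K v i * (f (v + dir i) - f v) = 0)
    (hf : ∀ v, |f v| ≤ M) (v₀ : ℤ × ℤ) (i₀ : Fin 6) : f (v₀ + dir i₀) = f v₀ := by
  have hM0 : 0 ≤ M := (abs_nonneg _).trans (hf 0)
  have hC0 : 0 < C := (hK0 0 0).trans_le (hKC 0 0)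
  -- the main estimate
  have main : ∀ ε > 0, K v₀ i₀ * (f (v₀ + dir i₀) - f v₀) ^ 2 / 4 ≤ 2 * M ^ 2 * C * ε := by
    intro ε hε
    obtain ⟨N, hN, hE⟩ := exists_cut hε
    obtain ⟨φ, hφ⟩ : ∃ φ : ℤ × ℤ → ℝ, φ = fun v => cut N (v - v₀) := ⟨_, rfl⟩
    have hfin : (Function.support φ).Finite := by
      have h1 : (Function.support (cut N)).Finite :=
        Set.Finite.subset (((range (N + 1)).biUnion 
          (fun k => (box k : Finset (ℤ × ℤ)))).finite_toSet)
          (fun v hv => box_finite_support hN v hv)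
      have h2 : Function.support φ = (fun v => v - v₀) ⁻¹' (Function.support (cut N)) := by
        rw [hφ]; rfl
      rw [h2]
      exact h1.preimage (fun a _ b _ h => by simpa using h)
    -- the finite set of edges which matter
    have hfinE : {p : (ℤ × ℤ) × Fin 6 | φ p.1 ≠ 0 ∨ φ (p.1 + dir p.2) ≠ 0}.Finite := by
      have h1 : {p : (ℤ × ℤ) × Fin 6 | φ p.1 ≠ 0}.Finite := by
        have : {p : (ℤ × ℤ) × Fin 6 | φ p.1 ≠ 0} = (Function.support φ) ×ˢ Set.univ := by
          ext p; simp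
        rw [this]
        exact hfin.prod Set.finite_univ
      have h2 : {p : (ℤ × ℤ) × Fin 6 | φ (p.1 + dir p.2) ≠ 0}.Finite := by
        have : {p : (ℤ × ℤ) × Fin 6 | φ (p.1 + dir p.2) ≠ 0} = 
            flip ⁻¹' {p : (ℤ × ℤ) × Fin 6 | φ p.1 ≠ 0} := rfl
        rw [this]
        exact h1.preimage flip.injective.injOn
      exact h1.union h2
    have summ : ∀ F : (ℤ × ℤ) × Fin 6 → ℝ, 
        (∀ p : (ℤ × ℤ) × Fin 6, φ p.1 = 0 → φ (p.1 + dir p.2) = 0 → F p = 0) → Summable F := by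
      intro F hF
      apply summable_of_hasFiniteSupport
      refine hfinE.subset ?_
      intro p hp
      by_contra hcon
      simp only [Set.mem_ofPred_eq, not_or, not_not] at hcon
      exact hp (hF p hcon.1 hcon.2)
    obtain ⟨A, hA⟩ : ∃ A : (ℤ × ℤ) × Fin 6 → ℝ, A = fun p => 
      φ p.1 ^ 2 * f p.1 * (K p.1 p.2 * (f (p.1 + dir p.2) - f p.1)) := ⟨_, rfl⟩
    have hAs : Summable A := summ A (fun p h1 _ => by simp [hA, h1])
    have hA0 : ∑' p, A p = 0 := by
      rw [hAs.tsum_prod]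
      have : ∀ v : ℤ × ℤ, ∑' i : Fin 6, A (v, i) = 0 := by
        intro v
        rw [tsum_fintype]
        simp only [hA]
        rw [← mul_sum, hharm, mul_zero]
      rw [tsum_congr this, tsum_zero]
    have hA0' : ∑' p, A (flip p) = 0 := by rw [flip.tsum_eq]; exact hA0
    have hAs' : Summable (fun p => A (flip p)) := flip.summable_iff.2 hAs
    have hsum : ∑' p, (A p + A (flip p)) = 0 := by
      rw [hAs.tsum_add hAs', hA0, hA0', add_zero]
    -- pointwise inequality
    obtain ⟨B, hB⟩ : ∃ B : (ℤ × ℤ) × Fin 6 → ℝ, B = fun p => 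
      K p.1 p.2 * ((φ p.1 ^ 2 + φ (p.1 + dir p.2) ^ 2) * (f (p.1 + dir p.2) - f p.1) ^ 2 / 4) := 
      ⟨_, rfl⟩
    obtain ⟨D, hD⟩ : ∃ D : (ℤ × ℤ) × Fin 6 → ℝ, D = fun p => 
      2 * M ^ 2 * C * (φ (p.1 + dir p.2) - φ p.1) ^ 2 := ⟨_, rfl⟩
    have hBs : Summable B := summ B (fun p h1 h2 => by simp [hB, h1, h2])
    have hDs : Summable D := summ D (fun p h1 h2 => by simp [hD, h1, h2])
    have hpt : ∀ p, B p + (A p + A (flip p)) ≤ D p := by
      rintro ⟨v, i⟩
      have e1 : A (flip (v, i)) = φ (v + dir i) ^ 2 * f (v + dir i) * 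
          (K v i * (f v - f (v + dir i))) := by
        simp only [hA, flip, Equiv.coe_fn_mk, hsymm, dir_add_three]
        simp
      rw [e1]
      simp only [hA, hB, hD]
      have hb := abs_le.1 (hf (v + dir i))
      have ha := abs_le.1 (hf v)
      generalize f (v + dir i) = b at *
      generalize f v = a at *
      generalize φ (v + dir i) = q at *
      generalize φ v = p at *
      have hk0 := hK0 v i
      have hkC := hKC v i
      generalize K v i = k at *
      have hab : (a + b) ^ 2 ≤ (2 * M) ^ 2 := by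
        apply sq_le_sq'
        · linarith
        · linarith
      have h1 : (p ^ 2 + q ^ 2) * (b - a) ^ 2 / 4 + (p ^ 2 * a * (b - a) + q ^ 2 * b * (a - b)) ≤
          2 * M ^ 2 * (q - p) ^ 2 := by
        have h2 : 0 ≤ ((q + p) * (b - a) / 2 + (q - p) * (a + b)) ^ 2 := sq_nonneg _
        have h3 : (q - p) ^ 2 * (a + b) ^ 2 ≤ (q - p) ^ 2 * (2 * M) ^ 2 := 
          mul_le_mul_of_nonneg_left hab (sq_nonneg _)
        have h4 : 0 ≤ (q - p) ^ 2 * (b - a) ^ 2 := by positivity
        nlinarith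
      calc k * ((p ^ 2 + q ^ 2) * (b - a) ^ 2 / 4) + 
            (p ^ 2 * a * (k * (b - a)) + q ^ 2 * b * (k * (a - b)))
          = k * ((p ^ 2 + q ^ 2) * (b - a) ^ 2 / 4 + 
              (p ^ 2 * a * (b - a) + q ^ 2 * b * (a - b))) := by ring
        _ ≤ k * (2 * M ^ 2 * (q - p) ^ 2) := mul_le_mul_of_nonneg_left h1 hk0.le
        _ ≤ C * (2 * M ^ 2 * (q - p) ^ 2) := mul_le_mul_of_nonneg_right hkC (by positivity)
        _ = 2 * M ^ 2 * C * (q - p) ^ 2 := by ring
    have hle : ∑' p, B p ≤ ∑' p, D p := by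
      have h1 := (hBs.add (hAs.add hAs')).tsum_le_tsum hpt hDs
      rw [hBs.tsum_add (hAs.add hAs'), hsum, add_zero] at h1
      exact h1
    have hBnn : ∀ p, 0 ≤ B p := by
      intro p
      simp only [hB]
      have := (hK0 p.1 p.2).le
      positivity
    have hB1 : B (v₀, i₀) ≤ ∑' p, B p := hBs.le_tsum (v₀, i₀) (fun p _ => hBnn p)
    have hDsum : ∑' p, D p ≤ 2 * M ^ 2 * C * ε := by
      have h1 : ∑' p, D p = 2 * M ^ 2 * C * 
          ∑' p : (ℤ × ℤ) × Fin 6, (φ (p.1 + dir p.2) - φ p.1) ^ 2 := by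
        rw [hD, tsum_mul_left]
      rw [h1]
      apply mul_le_mul_of_nonneg_left _ (by positivity)
      refine le_trans (le_of_eq ?_) hE
      rw [← (Equiv.prodCongr (Equiv.subRight v₀) (Equiv.refl (Fin 6))).tsum_eq
        (fun p : (ℤ × ℤ) × Fin 6 => (cut N (p.1 + dir p.2) - cut N p.1) ^ 2)]
      apply tsum_congr
      rintro ⟨v, i⟩
      simp only [hφ, Equiv.prodCongr_apply, Prod.map, Equiv.subRight_apply, Equiv.refl_apply]
      congr 3
      abel
    have hφ1 : φ v₀ = 1 := by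
      rw [hφ]
      simp [cut, nrm, g_zero]
    have h5 : K v₀ i₀ * (f (v₀ + dir i₀) - f v₀) ^ 2 / 4 ≤ B (v₀, i₀) := by
      simp only [hB, hφ1]
      have h6 := (hK0 v₀ i₀).le
      have h7 : 0 ≤ K v₀ i₀ * (φ (v₀ + dir i₀) ^ 2 * (f (v₀ + dir i₀) - f v₀) ^ 2) := by positivity
      linarith
    linarith
  have hz : K v₀ i₀ * (f (v₀ + dir i₀) - f v₀) ^ 2 / 4 ≤ 0 := by
    by_contra hcon
    push Not at hcon
    obtain ⟨X, hX⟩ : ∃ X, X = K v₀ i₀ * (f (v₀ + dir i₀) - f v₀) ^ 2 / 4 := ⟨_, rfl⟩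
    rw [← hX] at hcon main
    have h1 := main (X / (2 * (2 * M ^ 2 * C + 1))) (by positivity)
    have h2 : 2 * M ^ 2 * C * (X / (2 * (2 * M ^ 2 * C + 1))) ≤ X / 2 := by
      have h3 : 0 < 2 * M ^ 2 * C + 1 := by positivity
      rw [mul_div_assoc', div_le_div_iff₀ (by positivity) (by positivity)]
      nlinarith
    linarith
  have h1 := hK0 v₀ i₀
  have h2 : (f (v₀ + dir i₀) - f v₀) ^ 2 ≤ 0 := by
    by_contra hcon
    push Not at hcon
    have : 0 < K v₀ i₀ * (f (v₀ + dir i₀) - f v₀) ^ 2 := mul_pos h1 hcon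
    linarith
  have h3 : f (v₀ + dir i₀) - f v₀ = 0 := by
    have := sq_nonneg (f (v₀ + dir i₀) - f v₀)
    exact pow_eq_zero_iff (two_ne_zero) |>.1 (le_antisymm h2 this)
  linarith

end Pool.Agent.W5h68.Doyle
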