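import Pool.Agent.W5h68.Doyle.Angle

set_option autoImplicit false

/-!
Packing labels of the hexagonal lattice whose neighbouring radii have bounded ratio.
-/

namespace Pool.Agent.W5h68.Doyle

open Real

/-- The angle sum of the label `R` at the vertex `v`. -/
noncomputable def angleSum (R : ℤ × ℤ → ℝ) (v : ℤ × ℤ) : ℝ :=
  ∑ i : Fin 6, ang (R v) (R (v + dir i)) (R (v + dir (i + 1)))

lemma dir_sum1 (i : Fin 6) : dir i + dir (i + 2) = dir (i + 1) := by
  fin_cases i <;> rfl

lemma dir_sum2 (i : Fin 6) : dir i + dir (i + 4) = dir (i + 5) := by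
  fin_cases i <;> rfl

/-- Edge conductances for a pair of labels `exp u`, `exp (u + f)`. -/
noncomputable def Kc (u f : ℤ × ℤ → ℝ) (v : ℤ × ℤ) (i : Fin 6) : ℝ :=
  Cnd (u v) (u (v + dir i)) (u (v + dir (i + 1))) (f v) (f (v + dir i)) (f (v + dir (i + 1))) +
  Cnd (u v) (u (v + dir i)) (u (v + dir (i + 5))) (f v) (f (v + dir i)) (f (v + dir (i + 5)))

lemma Kc_pos (u f : ℤ × ℤ → ℝ) (v : ℤ × ℤ) (i : Fin 6) : 0 < Kc u f v i :=
  add_pos (Cnd_pos _ _ _ _ _ _) (Cnd_pos _ _ _ _ _ _)

lemma Kc_le (u f : ℤ × ℤ → ℝ) (v : ℤ × ℤ) (i : Fin 6) : Kc u f v i ≤ 1 := by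
  have h1 := Cnd_le (u v) (u (v + dir i)) (u (v + dir (i + 1))) (f v) (f (v + dir i))
    (f (v + dir (i + 1)))
  have h2 := Cnd_le (u v) (u (v + dir i)) (u (v + dir (i + 5))) (f v) (f (v + dir i))
    (f (v + dir (i + 5)))
  unfold Kc
  linarith

lemma Kc_symm (u f : ℤ × ℤ → ℝ) (v : ℤ × ℤ) (i : Fin 6) :
    Kc u f (v + dir i) (i + 3) = Kc u f v i := by
  have e0 : v + dir i + dir (i + 3) = v := by rw [dir_add_three]; abel
  have e1 : v + dir i + dir (i + 3 + 1) = v + dir (i + 5) := by
    rw [add_assoc, show i + 3 + 1 = i + 4 by fin_cases i <;> rfl, dir_sum2]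
  have e2 : v + dir i + dir (i + 3 + 5) = v + dir (i + 1) := by
    rw [add_assoc, show i + 3 + 5 = i + 2 by fin_cases i <;> rfl, dir_sum1]
  unfold Kc
  rw [e0, e1, e2, Cnd_symm (u (v + dir i)) (u v), Cnd_symm (u (v + dir i)) (u v), add_comm]

lemma angleSum_sub (u f : ℤ × ℤ → ℝ) (v : ℤ × ℤ) :
    angleSum (fun w => exp (u w + f w)) v - angleSum (fun w => exp (u w)) v =
      ∑ i, Kc u f v i * (f (v + dir i) - f v) := by
  unfold angleSum
  rw [← Finset.sum_sub_distrib]
  have h1 : ∀ i : Fin 6, ang (exp (u v + f v)) (exp (u (v + dir i) + f (v + dir i)))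
      (exp (u (v + dir (i + 1)) + f (v + dir (i + 1)))) -
      ang (exp (u v)) (exp (u (v + dir i))) (exp (u (v + dir (i + 1)))) =
      Cnd (u v) (u (v + dir i)) (u (v + dir (i + 1))) (f v) (f (v + dir i))
        (f (v + dir (i + 1))) * (f (v + dir i) - f v) +
      Cnd (u v) (u (v + dir (i + 1))) (u (v + dir i)) (f v) (f (v + dir (i + 1)))
        (f (v + dir i)) * (f (v + dir (i + 1)) - f v) := by
    intro i
    exact ang_sub _ _ _ _ _ _
  rw [Finset.sum_congr rfl (fun i _ => h1 i), Finset.sum_add_distrib]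
  have h2 : ∑ i : Fin 6, Cnd (u v) (u (v + dir (i + 1))) (u (v + dir i)) (f v)
      (f (v + dir (i + 1))) (f (v + dir i)) * (f (v + dir (i + 1)) - f v) =
      ∑ i : Fin 6, Cnd (u v) (u (v + dir i)) (u (v + dir (i + 5))) (f v) (f (v + dir i))
        (f (v + dir (i + 5))) * (f (v + dir i) - f v) := by
    rw [← Equiv.sum_comp (Equiv.addRight (1 : Fin 6)) (fun i => Cnd (u v) (u (v + dir i))
      (u (v + dir (i + 5))) (f v) (f (v + dir i))
        (f (v + dir (i + 5))) * (f (v + dir i) - f v))]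
    apply Finset.sum_congr rfl
    intro i _
    simp only [Equiv.coe_addRight]
    have : i + 1 + 5 = i := by fin_cases i <;> rfl
    rw [this]
  rw [h2, ← Finset.sum_add_distrib]
  apply Finset.sum_congr rfl
  intro i _
  unfold Kc
  ring

/-- If the ratios of neighbouring radii are bounded, then the logarithmic differences in a lattice
direction are constant. -/
lemma const_diff {R : ℤ × ℤ → ℝ} (hpos : ∀ v, 0 < R v) (hsum : ∀ v, angleSum R v = 2 * π)
    {M : ℝ} (j : Fin 6) (hM : ∀ v, |log (R (v + dir j)) - log (R v)| ≤ M) (v : ℤ × ℤ)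
    (i : Fin 6) :
    log (R (v + dir i + dir j)) - log (R (v + dir i)) = log (R (v + dir j)) - log (R v) := by
  obtain ⟨u, hu⟩ : ∃ u : ℤ × ℤ → ℝ, u = fun w => log (R w) := ⟨_, rfl⟩
  obtain ⟨f, hf⟩ : ∃ f : ℤ × ℤ → ℝ, f = fun w => log (R (w + dir j)) - log (R w) := ⟨_, rfl⟩
  have hR : (fun w => exp (u w)) = R := by
    funext w
    rw [hu]
    exact exp_log (hpos w)
  have hR' : (fun w => exp (u w + f w)) = fun w => R (w + dir j) := by
    funext w
    rw [hu, hf]
    simp only [add_sub_cancel]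
    exact exp_log (hpos _)
  have hsum' : ∀ w, angleSum (fun w => R (w + dir j)) w = 2 * π := by
    intro w
    rw [← hsum (w + dir j)]
    unfold angleSum
    apply Finset.sum_congr rfl
    intro i _
    have e1 : w + dir i + dir j = w + dir j + dir i := by abel
    have e2 : w + dir (i + 1) + dir j = w + dir j + dir (i + 1) := by abel
    simp only [e1, e2]
  have hharm : ∀ w, ∑ i, Kc u f w i * (f (w + dir i) - f w) = 0 := by
    intro w
    rw [← angleSum_sub, hR, hR', hsum, hsum', sub_self]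
  have := liouville (Kc u f) f 1 M (Kc_pos u f) (Kc_le u f) (Kc_symm u f) hharm
    (fun w => by rw [hf]; exact hM w) v i
  rw [hf] at this
  exact this

/-- A function on `ℤ × ℤ` which is invariant under the six directions is constant. -/
lemma const_of_dir {f : ℤ × ℤ → ℝ} (h : ∀ v i, f (v + dir i) = f v) (v : ℤ × ℤ) :
    f v = f 0 := by
  have h1 : ∀ n m : ℤ, f (n, m) = f (0, m) := by
    intro n m
    induction n using Int.induction_on with
    | zero => rfl
    | succ n ih =>
      have := h ((n : ℤ), m) 0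
      rw [← ih, ← this]
      congr 1
      simp [dir]
    | pred n ih =>
      have := h (-(n : ℤ), m) 3
      rw [← ih, ← this]
      congr 1
      simp [dir]
      ring
  have h2 : ∀ m : ℤ, f (0, m) = f (0, 0) := by
    intro m
    induction m using Int.induction_on with
    | zero => rfl
    | succ n ih =>
      have := h (0, (n : ℤ)) 1
      rw [← ih, ← this]
      rfl
    | pred n ih =>
      have := h (0, -(n : ℤ)) 4
      rw [← ih, ← this]
      rfl
  obtain ⟨n, m⟩ := v
  rw [h1, h2]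
  rfl

/-- Packing labels with bounded ratio of neighbouring radii. -/
theorem label_rigid {R : ℤ × ℤ → ℝ} (hpos : ∀ v, 0 < R v) (hsum : ∀ v, angleSum R v = 2 * π)
    {M : ℝ} (hM : ∀ v (j : Fin 6), |log (R (v + dir j)) - log (R v)| ≤ M) :
    ∃ a b c : ℝ, 0 < a ∧ 0 < b ∧ 0 < c ∧ ∀ n m : ℤ, R (n, m) = c * a ^ n * b ^ m := by
  have hA : ∀ v, log (R (v + dir 0)) - log (R v) = log (R (0 + dir 0)) - log (R 0) := by
    intro v
    exact const_of_dir (f := fun v => log (R (v + dir 0)) - log (R v))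
      (fun v i => const_diff hpos hsum 0 (fun w => hM w 0) v i) v
  have hB : ∀ v, log (R (v + dir 1)) - log (R v) = log (R (0 + dir 1)) - log (R 0) := by
    intro v
    exact const_of_dir (f := fun v => log (R (v + dir 1)) - log (R v))
      (fun v i => const_diff hpos hsum 1 (fun w => hM w 1) v i) v
  have hA' : ∀ v, R (v + dir 0) = R v * (R (0 + dir 0) / R 0) := by
    intro v
    have h1 := hA v
    rw [← Real.log_div (hpos _).ne' (hpos _).ne', ← Real.log_div (hpos _).ne' (hpos _).ne'] at h1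
    have h2 := Real.log_injOn_pos (Set.mem_Ioi.2 (div_pos (hpos _) (hpos _)))
      (Set.mem_Ioi.2 (div_pos (hpos _) (hpos _))) h1
    rw [← h2]
    have := (hpos v).ne'
    field_simp
  have hB' : ∀ v, R (v + dir 1) = R v * (R (0 + dir 1) / R 0) := by
    intro v
    have h1 := hB v
    rw [← Real.log_div (hpos _).ne' (hpos _).ne', ← Real.log_div (hpos _).ne' (hpos _).ne'] at h1
    have h2 := Real.log_injOn_pos (Set.mem_Ioi.2 (div_pos (hpos _) (hpos _)))
      (Set.mem_Ioi.2 (div_pos (hpos _) (hpos _))) h1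
    rw [← h2]
    have := (hpos v).ne'
    field_simp
  obtain ⟨a, ha⟩ : ∃ a, a = R (0 + dir 0) / R 0 := ⟨_, rfl⟩
  obtain ⟨b, hb⟩ : ∃ b, b = R (0 + dir 1) / R 0 := ⟨_, rfl⟩
  have ha0 : 0 < a := by rw [ha]; exact div_pos (hpos _) (hpos _)
  have hb0 : 0 < b := by rw [hb]; exact div_pos (hpos _) (hpos _)
  rw [← ha] at hA'
  rw [← hb] at hB'
  have h1 : ∀ n m : ℤ, R (n, m) = R (0, m) * a ^ n := by
    intro n m
    induction n using Int.induction_on with
    | zero => simp
    | succ n ih =>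
      have := hA' ((n : ℤ), m)
      have e : ((n : ℤ), m) + dir 0 = ((n : ℤ) + 1, m) := by simp [dir]
      rw [e] at this
      rw [this, ih, zpow_add_one₀ ha0.ne']
      ring
    | pred n ih =>
      have := hA' (-(n : ℤ) - 1, m)
      have e : (-(n : ℤ) - 1, m) + dir 0 = (-(n : ℤ), m) := by simp [dir]
      rw [e, ih] at this
      have h3 : a ^ (-(n : ℤ)) = a ^ (-(n : ℤ) - 1) * a := by
        rw [← zpow_add_one₀ ha0.ne']
        congr 1
        ring
      rw [h3, ← mul_assoc] at this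
      exact (mul_right_cancel₀ ha0.ne' this).symm
  have h2 : ∀ m : ℤ, R (0, m) = R (0, 0) * b ^ m := by
    intro m
    induction m using Int.induction_on with
    | zero => simp
    | succ n ih =>
      have := hB' (0, (n : ℤ))
      have e : (0, (n : ℤ)) + dir 1 = (0, (n : ℤ) + 1) := by simp [dir]
      rw [e] at this
      rw [this, ih, zpow_add_one₀ hb0.ne']
      ring
    | pred n ih =>
      have := hB' (0, -(n : ℤ) - 1)
      have e : (0, -(n : ℤ) - 1) + dir 1 = (0, -(n : ℤ)) := by simp [dir]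
      rw [e, ih] at this
      have h3 : b ^ (-(n : ℤ)) = b ^ (-(n : ℤ) - 1) * b := by
        rw [← zpow_add_one₀ hb0.ne']
        congr 1
        ring
      rw [h3, ← mul_assoc] at this
      exact (mul_right_cancel₀ hb0.ne' this).symm
  refine ⟨a, b, R (0, 0), ha0, hb0, hpos _, fun n m => ?_⟩
  rw [h1, h2]
  ring

end Pool.Agent.W5h68.Doyle
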