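import Pool.Agent.W5h68.Doyle.Rigid

set_option autoImplicit false

/-!
The ring lemma for six circles around a circle.
-/

namespace Pool.Agent.W5h68.Doyle

open Real Finset

lemma chain_bound (b : ℕ → ℝ) (hb0 : ∀ l, 0 ≤ b l) (hb1 : ∀ l, b l ≤ 1)
    (h : ∀ i k, i < k → k ≤ 5 → b i * b k ≤ ∑ l ∈ Ico i k, b l * b (l + 1)) (n : ℕ) :
    ∀ i, i + n ≤ 5 → ∀ δ : ℝ, 0 < δ → δ ≤ 1 → δ ≤ b i → δ ≤ b (i + n) →
      ∀ l, i ≤ l → l ≤ i + n → (δ / 5) ^ (2 ^ n) ≤ b l := by
  induction n using Nat.strong_induction_on with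
  | _ n ih =>
    intro i hin δ hδ0 hδ1 hi hk l hil hlk
    have hδ5 : 0 < δ / 5 := by positivity
    have hδ5' : δ / 5 ≤ 1 := by linarith
    rcases Nat.lt_or_ge n 2 with hn | hn
    · -- `l` is an end point
      have h1 : (δ / 5) ^ (2 ^ n) ≤ (δ / 5) ^ 1 :=
        pow_le_pow_of_le_one hδ5.le hδ5' Nat.one_le_two_pow
      have h2 : l = i ∨ l = i + n := by omega
      rw [pow_one] at h1
      rcases h2 with h2 | h2
      · rw [h2]; linarith
      · rw [h2]; linarith
    · have h1 := h i (i + n) (by omega) hin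
      have h2 : δ ^ 2 ≤ b i * b (i + n) := by
        rw [sq]
        exact mul_le_mul hi hk hδ0.le (hδ0.le.trans hi)
      -- some consecutive product is large
      have h3 : ∃ l₀ ∈ Ico i (i + n), δ ^ 2 / 5 ≤ b l₀ * b (l₀ + 1) := by
        by_contra hcon
        push Not at hcon
        have h4 : ∑ l ∈ Ico i (i + n), b l * b (l + 1) < ∑ l ∈ Ico i (i + n), δ ^ 2 / 5 := by
          apply sum_lt_sum_of_nonempty
          · rw [nonempty_Ico]; omega
          · exact hcon
        rw [sum_const, Nat.card_Ico, nsmul_eq_mul] at h4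
        have h5 : ((i + n - i : ℕ) : ℝ) ≤ 5 := by
          have : i + n - i ≤ 5 := by omega
          exact_mod_cast this
        have h6 : 0 ≤ δ ^ 2 / 5 := by positivity
        nlinarith
      obtain ⟨l₀, hl₀, h4⟩ := h3
      rw [mem_Ico] at hl₀
      have h5 : δ ^ 2 / 5 ≤ b l₀ := by
        have := mul_le_mul_of_nonneg_left (hb1 (l₀ + 1)) (hb0 l₀)
        linarith
      have h6 : δ ^ 2 / 5 ≤ b (l₀ + 1) := by
        have := mul_le_mul_of_nonneg_right (hb1 l₀) (hb0 (l₀ + 1))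
        linarith
      have hδ' : 0 < δ ^ 2 / 5 := by positivity
      have hδ'' : δ ^ 2 / 5 ≤ 1 := by nlinarith
      have hδi : δ ^ 2 / 5 ≤ δ := by nlinarith
      have hmono : ∀ m, m < n → (δ / 5) ^ (2 ^ n) ≤ (δ ^ 2 / 5 / 5) ^ (2 ^ m) := by
        intro m hm
        have e : δ ^ 2 / 5 / 5 = (δ / 5) ^ 2 := by ring
        rw [e, ← pow_mul, ← pow_succ']
        exact pow_le_pow_of_le_one hδ5.le hδ5' (Nat.pow_le_pow_right (by norm_num) hm)
      rcases Nat.lt_or_ge l₀ l with hll | hll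
      · -- right part
        obtain ⟨m, hm⟩ : ∃ m, i + n = l₀ + 1 + m := ⟨i + n - (l₀ + 1), by omega⟩
        have := ih m (by omega) (l₀ + 1) (by omega) (δ ^ 2 / 5) hδ' hδ'' h6
          (by rw [← hm]; linarith) l (by omega) (by omega)
        exact (hmono m (by omega)).trans this
      · obtain ⟨m, hm⟩ : ∃ m, l₀ = i + m := ⟨l₀ - i, by omega⟩
        have := ih m (by omega) i (by omega) (δ ^ 2 / 5) hδ' hδ'' (by linarith)
          (by rw [← hm]; exact h5) l hil (by omega)
        exact (hmono m (by omega)).trans this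

/-- Distance of the centres of two circles which touch the unit circle about `0`. -/
lemma dist_sq_centres {p q : ℝ} {u w : ℂ} (hu : ‖u‖ = 1) (hw : ‖w‖ = 1) :
    ‖(p : ℂ) * u - (q : ℂ) * w‖ ^ 2 = (p - q) ^ 2 + p * q * ‖u - w‖ ^ 2 := by
  have h1 : Complex.normSq u = 1 := by rw [Complex.normSq_eq_norm_sq, hu]; norm_num
  have h2 : Complex.normSq w = 1 := by rw [Complex.normSq_eq_norm_sq, hw]; norm_num
  rw [← Complex.normSq_eq_norm_sq, ← Complex.normSq_eq_norm_sq]
  rw [Complex.normSq_apply] at *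
  simp only [Complex.sub_re, Complex.mul_re, Complex.ofReal_re, Complex.ofReal_im, Complex.sub_im,
    Complex.mul_im, zero_mul, sub_zero, add_zero]
  rw [Complex.normSq_apply] at *
  simp only [Complex.sub_re, Complex.sub_im]
  linear_combination (p ^ 2 - p * q) * h1 + (q ^ 2 - p * q) * h2

lemma ang_le {x y z : ℝ} (hx : 0 < x) (hy : 0 < y) (hz : 0 < z) :
    ang x y z ≤ π * (sqrt (y / (x + y)) * sqrt (z / (x + z))) := by
  rw [ang_eq hx hy hz]
  obtain ⟨P, hP⟩ : ∃ P, P = sqrt (y * z / (x * (x + y + z))) := ⟨_, rfl⟩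
  rw [← hP]
  have hP0 : 0 ≤ P := by rw [hP]; exact Real.sqrt_nonneg _
  have hP2 : P ^ 2 = y * z / (x * (x + y + z)) := by
    rw [hP]; exact Real.sq_sqrt (by positivity)
  have h1 := Real.mul_le_sin (Real.arctan_nonneg.2 hP0) (Real.arctan_lt_pi_div_two P).le
  have h2 : Real.sin (arctan P) = sqrt (y / (x + y)) * sqrt (z / (x + z)) := by
    have h3 : 0 ≤ Real.sin (arctan P) := by
      apply Real.sin_nonneg_of_nonneg_of_le_pi (Real.arctan_nonneg.2 hP0)
      have := (Real.arctan_lt_pi_div_two P).le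
      have := Real.pi_pos
      linarith
    rw [← Real.sqrt_mul (by positivity)]
    apply ((Real.sqrt_eq_iff_mul_self_eq (by positivity) h3).2 _).symm
    rw [← sq, Real.sin_sq_arctan, hP2]
    have h1 : 1 + y * z / (x * (x + y + z)) = (x + y) * (x + z) / (x * (x + y + z)) := by
      field_simp
      ring
    rw [h1]
    field_simp
  rw [← h2]
  have hpi := Real.pi_pos
  have h4 : π * (2 / π * arctan P) ≤ π * Real.sin (arctan P) :=
    mul_le_mul_of_nonneg_left h1 hpi.le
  have h5 : π * (2 / π * arctan P) = 2 * arctan P := by field_simp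
  linarith

/-- Ring lemma: six circles of radii `y i` and centres `z i`, tangent in cyclic order, touching a
circle of radius `x` with angle sum `2π`, with disjoint interiors. -/
lemma ring_lemma {x : ℝ} (hx : 0 < x) (y : Fin 6 → ℝ) (hy : ∀ i, 0 < y i) (o : ℂ)
    (z : Fin 6 → ℂ) (hz : ∀ i, dist o (z i) = x + y i)
    (htan : ∀ i, dist (z i) (z (i + 1)) = y i + y (i + 1))
    (hdis : ∀ i j, i ≠ j → y i + y j ≤ dist (z i) (z j))
    (hsum : ∑ i, ang x (y i) (y (i + 1)) = 2 * π) (i : Fin 6) :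
    ((1 / 15 : ℝ) ^ 32) ^ 2 * x ≤ y i := by
  have hpi := Real.pi_pos
  -- notation
  obtain ⟨s, hs⟩ : ∃ s : Fin 6 → ℝ, s = fun i => sqrt (y i / (x + y i)) := ⟨_, rfl⟩
  have hs2 : ∀ i, s i ^ 2 = y i / (x + y i) := by
    intro i
    have := hy i
    rw [hs]
    exact Real.sq_sqrt (by positivity)
  have hs0 : ∀ i, 0 ≤ s i := by
    intro i
    rw [hs]
    exact Real.sqrt_nonneg _
  have hs1 : ∀ i, s i ≤ 1 := by
    intro i
    have := hy i
    rw [hs]
    simp only
    rw [Real.sqrt_le_one, div_le_one (by positivity)]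
    linarith
  obtain ⟨u, hu⟩ : ∃ u : Fin 6 → ℂ, u = fun i => (z i - o) / ((x + y i : ℝ) : ℂ) := ⟨_, rfl⟩
  have hxy : ∀ i, 0 < x + y i := fun i => add_pos hx (hy i)
  have hu1 : ∀ i, ‖u i‖ = 1 := by
    intro i
    rw [hu]
    simp only
    rw [norm_div, Complex.norm_real, Real.norm_of_nonneg (hxy i).le, ← dist_eq_norm, dist_comm,
      hz, div_self (hxy i).ne']
  have hzu : ∀ i, z i - o = ((x + y i : ℝ) : ℂ) * u i := by
    intro i
    rw [hu]
    have : ((x + y i : ℝ) : ℂ) ≠ 0 := by exact_mod_cast (hxy i).ne'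
    field_simp
  have hd : ∀ i j, dist (z i) (z j) ^ 2 = (y i - y j) ^ 2 +
      (x + y i) * (x + y j) * dist (u i) (u j) ^ 2 := by
    intro i j
    have e : z i - z j = ((x + y i : ℝ) : ℂ) * u i - ((x + y j : ℝ) : ℂ) * u j := by
      rw [← hzu, ← hzu]; ring
    rw [dist_eq_norm, e, dist_sq_centres (hu1 i) (hu1 j), dist_eq_norm]
    ring
  have hprod : ∀ i j, (x + y i) * (x + y j) * (2 * (s i * s j)) ^ 2 = 4 * (y i * y j) := by
    intro i j
    have h1 := (hxy i).ne'
    have h2 := (hxy j).ne'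
    rw [mul_pow, mul_pow, hs2, hs2]
    field_simp
    norm_num
  have hge : ∀ i j, i ≠ j → 2 * (s i * s j) ≤ dist (u i) (u j) := by
    intro i j hij
    have h1 := hdis i j hij
    have h2 : (y i + y j) ^ 2 ≤ dist (z i) (z j) ^ 2 := by
      have := hy i
      have := hy j
      gcongr
    rw [hd] at h2
    have h3 : (x + y i) * (x + y j) * (2 * (s i * s j)) ^ 2 ≤
        (x + y i) * (x + y j) * dist (u i) (u j) ^ 2 := by
      rw [hprod]
      nlinarith
    have h4 := le_of_mul_le_mul_left h3 (mul_pos (hxy i) (hxy j))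
    exact (pow_le_pow_iff_left₀ (by have := hs0 i; have := hs0 j; positivity) dist_nonneg
      two_ne_zero).1 h4
  have heq : ∀ i, dist (u i) (u (i + 1)) = 2 * (s i * s (i + 1)) := by
    intro i
    have h2 : dist (z i) (z (i + 1)) ^ 2 = (y i + y (i + 1)) ^ 2 := by rw [htan]
    rw [hd] at h2
    have h3 : (x + y i) * (x + y (i + 1)) * (2 * (s i * s (i + 1))) ^ 2 =
        (x + y i) * (x + y (i + 1)) * dist (u i) (u (i + 1)) ^ 2 := by
      rw [hprod]
      nlinarith
    have h4 := mul_left_cancel₀ (mul_pos (hxy i) (hxy (i + 1))).ne' h3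
    exact ((pow_left_inj₀ (by have := hs0 i; have := hs0 (i + 1); positivity) dist_nonneg
      two_ne_zero).1 h4).symm
  -- one product of consecutive terms is at least `1/3`
  have hbig : ∃ j, 1 / 3 ≤ s j * s (j + 1) := by
    by_contra hcon
    push Not at hcon
    have h1 : ∑ i, ang x (y i) (y (i + 1)) < ∑ _i : Fin 6, π / 3 := by
      apply sum_lt_sum_of_nonempty ⟨0, mem_univ _⟩
      intro i _
      have h2 := ang_le hx (hy i) (hy (i + 1))
      have h3 : sqrt (y i / (x + y i)) * sqrt (y (i + 1) / (x + y (i + 1))) < 1 / 3 := by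
        have := hcon i
        rw [hs] at this
        exact this
      have h4 := mul_lt_mul_of_pos_left h3 hpi
      linarith
    rw [hsum, sum_const, card_univ, Fintype.card_fin, nsmul_eq_mul] at h1
    norm_num at h1
    linarith
  obtain ⟨j, hj⟩ := hbig
  obtain ⟨b, hb⟩ : ∃ b : ℕ → ℝ, b = fun l => s (j + 1 + (Fin.ofNat 6 l)) := ⟨_, rfl⟩
  have hstep : ∀ l : ℕ, j + 1 + Fin.ofNat 6 (l + 1) = j + 1 + Fin.ofNat 6 l + 1 := by
    intro l
    have : Fin.ofNat 6 (l + 1) = Fin.ofNat 6 l + 1 := by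
      ext
      simp [Fin.ofNat, Fin.val_add]
    rw [this, add_assoc]
    rw [add_assoc, add_assoc]
  have hchain : ∀ i k, i < k → k ≤ 5 → b i * b k ≤ ∑ l ∈ Ico i k, b l * b (l + 1) := by
    intro i k hik hk
    have h1 : j + 1 + Fin.ofNat 6 i ≠ j + 1 + Fin.ofNat 6 k := by
      intro h
      have h2 := add_left_cancel h
      have h3 := congrArg Fin.val h2
      simp only [Fin.ofNat] at h3
      omega
    have h2 := hge _ _ h1
    have h3 := dist_le_Ico_sum_dist (fun l : ℕ => u (j + 1 + Fin.ofNat 6 l)) hik.le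
    have h4 : ∑ l ∈ Ico i k, dist (u (j + 1 + Fin.ofNat 6 l)) (u (j + 1 + Fin.ofNat 6 (l + 1))) =
        ∑ l ∈ Ico i k, 2 * (b l * b (l + 1)) := by
      apply sum_congr rfl
      intro l _
      rw [hstep, heq, hb]
      simp only [hstep]
    rw [h4, ← mul_sum] at h3
    have h5 : 2 * (b i * b k) ≤ dist (u (j + 1 + Fin.ofNat 6 i)) (u (j + 1 + Fin.ofNat 6 k)) := by
      rw [hb]; exact h2
    linarith
  have hb0 : ∀ l, 0 ≤ b l := fun l => by rw [hb]; exact hs0 _
  have hb1 : ∀ l, b l ≤ 1 := fun l => by rw [hb]; exact hs1 _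
  have e0 : b 0 = s (j + 1) := by
    rw [hb]
    simp only
    congr 1
    have : Fin.ofNat 6 0 = 0 := rfl
    rw [this, add_zero]
  have e5 : b 5 = s j := by
    rw [hb]
    simp only
    congr 1
    fin_cases j <;> rfl
  have hb00 : 1 / 3 ≤ b 0 := by
    rw [e0]
    have := mul_le_mul_of_nonneg_right (hs1 j) (hs0 (j + 1))
    linarith
  have hb05 : 1 / 3 ≤ b (0 + 5) := by
    rw [zero_add, e5]
    have := mul_le_mul_of_nonneg_left (hs1 (j + 1)) (hs0 j)
    linarith
  have hall := chain_bound b hb0 hb1 hchain 5 0 (by norm_num) (1 / 3) (by norm_num) (by norm_num)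
    hb00 hb05
  -- the given index
  obtain ⟨l, hl5, hl⟩ : ∃ l : ℕ, l ≤ 5 ∧ i = j + 1 + Fin.ofNat 6 l := by
    refine ⟨(i - (j + 1)).val, by omega, ?_⟩
    have : Fin.ofNat 6 (i - (j + 1)).val = i - (j + 1) := by
      ext
      simp [Fin.ofNat]
    rw [this]
    abel
  have h1 := hall l (Nat.zero_le _) (by omega)
  have h2 : b l = s i := by rw [hb, hl]
  rw [h2] at h1
  have h3 : (1 / 15 : ℝ) ^ 32 ≤ s i := by
    refine le_trans (le_of_eq ?_) h1
    norm_num
  have h4 : ((1 / 15 : ℝ) ^ 32) ^ 2 ≤ s i ^ 2 := by gcongr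
  rw [hs2, le_div_iff₀ (hxy i)] at h4
  have h5 : 0 ≤ ((1 / 15 : ℝ) ^ 32) ^ 2 * y i := by
    have := hy i
    positivity
  linarith

end Pool.Agent.W5h68.Doyle
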